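import Pool.Agent.H82.RD.Targets
import Pool.Agent.H82.RD.Basic

/-!
# Board rd82_modules, row DRK: a polynomial from vanishing determinants
-/

set_option autoImplicit false

open MvPolynomial

namespace Pool.Agent.H49.RD

open Pool.Agent.H82.RD

section

variable {k : Type} [Field k] {u A B : ℕ}

/-- the values of the monomials -/
def ph (A B : ℕ) (x : (Fin u → k) × k) : Cl u A B → k := fun c =>
  (∏ i, x.1 i ^ c.1.1 i) * x.2 ^ (c.2 : ℕ)

/-- the exponent -/
noncomputable def ex (c : Cl u A B) : Option (Fin u) →₀ ℕ :=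
  Finsupp.equivFunOnFinite.symm fun o => o.elim (c.2 : ℕ) (fun i => c.1.1 i)

theorem ex_inj : Function.Injective (ex : Cl u A B → Option (Fin u) →₀ ℕ) := by
  intro c c' h
  unfold ex at h
  have h1 := Finsupp.equivFunOnFinite.symm.injective h
  refine Prod.ext (Subtype.ext (funext fun i => ?_)) (Fin.ext ?_)
  · exact congrFun h1 (some i)
  · exact congrFun h1 none

theorem ev_mon (x : (Fin u → k) × k) (c : Cl u A B) (a : k) :
    ev x.1 x.2 (monomial (ex c) a) = a * ph A B x c := by
  unfold ev ph
  rw [eval_monomial, Finsupp.prod_fintype _ _ (fun _ => pow_zero _), Fintype.prod_option]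
  simp only [ex, Finsupp.equivFunOnFinite_symm_apply_apply, Option.elim_none, Option.elim_some]
  ring

theorem span_ne (K : Set ((Fin u → k) × k))
    (h : ∀ g : Cl u A B → (Fin u → k) × k, (∀ c, g c ∈ K) →
      (im A B (fun c => (g c).1) fun c => (g c).2).det = 0) :
    Submodule.span k (ph A B '' K) < ⊤ := by
  rw [lt_top_iff_ne_top]
  intro htop
  obtain ⟨b, hb, hspan, hli⟩ := exists_linearIndependent k (ph A B '' K)
  rw [htop] at hspan
  have hbas : Module.Basis b k (Cl u A B → k) :=
    Module.Basis.mk hli (by rw [Subtype.range_coe_subtype, Set.ofPred_mem_eq, hspan])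
  have hfin : Finite b := Module.Finite.finite_basis hbas
  have hft : Fintype b := Fintype.ofFinite b
  have hcard : Fintype.card (Cl u A B) = Fintype.card b := by
    rw [← Module.finrank_eq_card_basis hbas, Module.finrank_fintype_fun_eq_card]
  let e : Cl u A B ≃ b := Fintype.equivOfCardEq hcard
  have hg : ∀ c : Cl u A B, ∃ x ∈ K, ph A B x = (e c : Cl u A B → k) := fun c => hb (e c).2
  choose g hgK hgp using hg
  have h1 := h g hgK
  have h2 : im A B (fun c => (g c).1) (fun c => (g c).2) =
      Matrix.of fun r => (e r : Cl u A B → k) := by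
    ext r c
    rw [Matrix.of_apply, ← hgp r]
    rfl
  rw [h2] at h1
  have h3 : LinearIndependent k (fun r : Cl u A B => (e r : Cl u A B → k)) :=
    hli.comp e e.injective
  have h4 : IsUnit (Matrix.of fun r => (e r : Cl u A B → k)) :=
    Matrix.linearIndependent_rows_iff_isUnit.1 h3
  rw [Matrix.isUnit_iff_isUnit_det, h1] at h4
  exact not_isUnit_zero h4

end

theorem pf_DRK : T_DRK := by
  intro k _ u A B K hB h
  obtain ⟨f, hf, hle⟩ := Submodule.exists_le_ker_of_lt_top _ (span_ne K h)
  classical
  have hfv : ∀ v : Cl u A B → k, f v = ∑ c, f (Pi.single c 1) * v c := by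
    intro v
    conv_lhs => rw [← Finset.univ_sum_single v]
    rw [map_sum]
    refine Finset.sum_congr rfl fun c _ => ?_
    have h1 : (Pi.single c (v c) : Cl u A B → k) = v c • Pi.single c 1 := by
      rw [← Pi.single_smul, smul_eq_mul, mul_one]
    rw [h1, map_smul, smul_eq_mul, mul_comm]
  let P : PR k u := ∑ c : Cl u A B, monomial (ex c) (f (Pi.single c 1))
  have hco : ∀ c : Cl u A B, coeff (ex c) P = f (Pi.single c 1) := by
    intro c
    simp only [P]
    rw [coeff_sum, Finset.sum_eq_single c]
    · rw [coeff_monomial, if_pos rfl]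
    · intro c' _ hc'
      rw [coeff_monomial, if_neg (fun h1 => hc' (ex_inj h1))]
    · intro h1
      exact absurd (Finset.mem_univ c) h1
  refine ⟨P, ?_, ?_, ?_⟩
  · intro hP
    apply hf
    ext v
    have h0 : ∀ c : Cl u A B, f (Pi.single c 1) = 0 := fun c => by
      rw [← hco c, hP, coeff_zero]
    simp [h0]
  · refine Submodule.sum_mem _ fun c _ => ?_
    rw [mem_VV]
    intro m hm
    have hm' : m = ex c := Finset.mem_singleton.1 (support_monomial_subset hm)
    subst hm'
    exact ⟨mem_Sx.1 c.1.2, c.2.2.le⟩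
  · intro x hx
    have h1 : ev x.1 x.2 P = f (ph A B x) := by
      rw [hfv]
      simp only [P, ev]
      rw [map_sum]
      exact Finset.sum_congr rfl fun c _ => ev_mon x c _
    rw [h1]
    exact hle (Submodule.subset_span ⟨x, hx, rfl⟩)

end Pool.Agent.H49.RD
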